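import Mathlib

/-! # Signs of weighted partition sums with factorial parts -/

set_option autoImplicit false

namespace Pool.Agent.Results.MP_e74e95_nt.SecondPartFails

open Finset

/-- `c_A(i, n)`: the number of partitions of `n` into exactly `i` parts, all of them in `A` -/
def c (A : Finset ℕ) (i n : ℕ) : ℕ :=
  ((Finset.univ : Finset (Nat.Partition n)).filter
    (fun p => (∀ a ∈ p.parts, a ∈ A) ∧ Multiset.card p.parts = i)).card

/-- `S_{A,k}(n) = ∑_{i=0}^{n} (-1)^i i^k c_A(i, n)` (with `0^0 = 1`) -/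
def S (A : Finset ℕ) (k n : ℕ) : ℤ :=
  ∑ i ∈ range (n + 1), (-1 : ℤ) ^ i * (i : ℤ) ^ k * (c A i n : ℤ)

/-- `U_m = {1!, 2!, …, m!}` -/
def U (m : ℕ) : Finset ℕ := (Icc 1 m).image Nat.factorial

theorem U_three : U 3 = {1, 2, 6} := by decide

theorem decomp (s : Multiset ℕ) (hs : ∀ a ∈ s, a = 1 ∨ a = 2 ∨ a = 6) :
    s = Multiset.replicate (s.count 1) 1 + Multiset.replicate (s.count 2) 2 +
      Multiset.replicate (s.count 6) 6 := by
  ext a
  rw [Multiset.count_add, Multiset.count_add, Multiset.count_replicate, Multiset.count_replicate,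
    Multiset.count_replicate]
  by_cases h1 : a = 1
  · subst h1; simp
  by_cases h2 : a = 2
  · subst h2; simp
  by_cases h6 : a = 6
  · subst h6; simp
  rw [if_neg (fun h => h1 h.symm), if_neg (fun h => h2 h.symm), if_neg (fun h => h6 h.symm)]
  simp only [add_zero]
  rw [Multiset.count_eq_zero]
  intro h
  rcases hs a h with h | h | h
  · exact h1 h
  · exact h2 h
  · exact h6 h

/-- the pairs (number of parts `2`, number of parts `6`) -/
def Pr (n : ℕ) : Finset (ℕ × ℕ) :=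
  (range (n + 1) ×ˢ range (n + 1)).filter (fun x => 2 * x.1 + 6 * x.2 ≤ n)

theorem c_eq (i n : ℕ) :
    c (U 3) i n = ((Pr n).filter (fun x => n - x.1 - 5 * x.2 = i)).card := by
  unfold c
  refine Finset.card_bij (fun p _ => (p.parts.count 2, p.parts.count 6)) ?_ ?_ ?_
  · intro p hp
    rw [mem_filter] at hp
    obtain ⟨_, hp1, hp2⟩ := hp
    have hd := decomp p.parts (fun a ha => by have := hp1 a ha; rw [U_three] at this; simpa using this)
    have hsum := p.parts_sum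
    rw [hd] at hsum hp2
    simp only [Multiset.sum_add, Multiset.sum_replicate, smul_eq_mul, Multiset.card_add,
      Multiset.card_replicate] at hsum hp2
    unfold Pr
    simp only [mem_filter, mem_product, mem_range]
    omega
  · intro p hp q hq hpq
    rw [mem_filter] at hp hq
    obtain ⟨_, hp1, hp2⟩ := hp
    obtain ⟨_, hq1, hq2⟩ := hq
    have hdp := decomp p.parts (fun a ha => by have := hp1 a ha; rw [U_three] at this; simpa using this)
    have hdq := decomp q.parts (fun a ha => by have := hq1 a ha; rw [U_three] at this; simpa using this)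
    simp only [Prod.mk.injEq] at hpq
    have hsum := p.parts_sum
    have hsum' := q.parts_sum
    rw [hdp] at hsum
    rw [hdq] at hsum'
    simp only [Multiset.sum_add, Multiset.sum_replicate, smul_eq_mul] at hsum hsum'
    have h1 : p.parts.count 1 = q.parts.count 1 := by omega
    apply Nat.Partition.ext
    rw [hdp, hdq, h1, hpq.1, hpq.2]
  · rintro ⟨b, d⟩ hx
    unfold Pr at hx
    simp only [mem_filter, mem_product, mem_range] at hx
    obtain ⟨⟨⟨hx1, hx2⟩, hx3⟩, hx4⟩ := hx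
    refine ⟨⟨Multiset.replicate (n - 2 * b - 6 * d) 1 + Multiset.replicate b 2 +
      Multiset.replicate d 6, ?_, ?_⟩, ?_, ?_⟩
    · intro a ha
      simp only [Multiset.mem_add, Multiset.mem_replicate] at ha
      omega
    · simp only [Multiset.sum_add, Multiset.sum_replicate, smul_eq_mul]
      omega
    · rw [mem_filter]
      refine ⟨mem_univ _, ?_, ?_⟩
      · intro a ha
        simp only [Multiset.mem_add, Multiset.mem_replicate] at ha
        rw [U_three]
        simp only [mem_insert, mem_singleton]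
        omega
      · simp only [Multiset.card_add, Multiset.card_replicate]
        omega
    · simp only [Multiset.count_add, Multiset.count_replicate]
      simp

theorem S_eq (n : ℕ) : S (U 3) 2 n = ∑ x ∈ Pr n, (-1 : ℤ) ^ (n - x.1 - 5 * x.2) *
    ((n - x.1 - 5 * x.2 : ℕ) : ℤ) ^ 2 := by
  unfold S
  rw [← Finset.sum_fiberwise_of_maps_to (s := Pr n) (t := range (n + 1))
    (g := fun x : ℕ × ℕ => n - x.1 - 5 * x.2) (fun x _ => mem_range.2 (by omega))]
  refine Finset.sum_congr rfl fun i _ => ?_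
  rw [c_eq]
  have h : ∀ x ∈ (Pr n).filter (fun x => n - x.1 - 5 * x.2 = i),
      (-1 : ℤ) ^ (n - x.1 - 5 * x.2) * ((n - x.1 - 5 * x.2 : ℕ) : ℤ) ^ 2 =
      (-1 : ℤ) ^ i * (i : ℤ) ^ 2 := by
    intro x hx
    rw [(mem_filter.1 hx).2]
  rw [Finset.sum_congr rfl h, Finset.sum_const, nsmul_eq_mul]
  ring

theorem inner (u : ℤ) (B : ℕ) :
    2 * ∑ b ∈ range (B + 1), (-1 : ℤ) ^ b * (u - b) ^ 2 =
      u * (u + 1) + (-1) ^ B * ((u - B - 1) * (u - B)) := by
  induction B with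
  | zero => simp; ring
  | succ B ih =>
    rw [Finset.sum_range_succ, mul_add, ih]
    push_cast
    ring

theorem outer1 (u : ℤ) (q : ℕ) :
    ∑ d ∈ range (2 * q + 1), (-1 : ℤ) ^ d * ((u - 5 * d) * (u - 5 * d + 1)) =
      u ^ 2 + u - 10 * u * q + 50 * (q : ℤ) ^ 2 + 20 * q := by
  induction q with
  | zero => simp; ring
  | succ q ih =>
    rw [show 2 * (q + 1) + 1 = (2 * q + 1) + 1 + 1 by ring, Finset.sum_range_succ,
      Finset.sum_range_succ, ih]
    have h1 : (-1 : ℤ) ^ (2 * q + 1) = -1 := by rw [pow_succ, pow_mul]; simp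
    have h2 : (-1 : ℤ) ^ (2 * q + 1 + 1) = 1 := by rw [pow_succ, h1]; simp
    rw [h1, h2]
    push_cast
    ring

theorem outer2 (w : ℤ) (q : ℕ) :
    3 * ∑ d ∈ range (2 * q + 1), ((w - 2 * d) * (w - 2 * d + 1)) =
      (2 * q + 1) * (3 * w ^ 2 + 3 * w - (12 * w + 6) * q + 16 * (q : ℤ) ^ 2 + 4 * q) := by
  induction q with
  | zero => simp; ring
  | succ q ih =>
    rw [show 2 * (q + 1) + 1 = (2 * q + 1) + 1 + 1 by ring, Finset.sum_range_succ,
      Finset.sum_range_succ, mul_add, mul_add, ih]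
    push_cast
    ring

theorem value (q : ℕ) :
    6 * ((-1 : ℤ) ^ (12 * q + 3) * S (U 3) 2 (12 * q + 3)) =
      -104 * (q : ℤ) ^ 3 + 90 * (q : ℤ) ^ 2 + 170 * q + 30 := by
  set n := 12 * q + 3 with hn
  -- rewrite as a double sum
  have h1 : (-1 : ℤ) ^ n * S (U 3) 2 n = ∑ d ∈ range (2 * q + 1),
      ∑ b ∈ range ((6 * q + 1 - 3 * d) + 1),
        (-1 : ℤ) ^ d * ((-1 : ℤ) ^ b * (((n : ℤ) - 5 * d) - b) ^ 2) := by
    rw [S_eq, Finset.mul_sum, Finset.sum_sigma']
    refine Finset.sum_bij (fun (x : ℕ × ℕ) _ => (⟨x.2, x.1⟩ : (_ : ℕ) × ℕ)) ?_ ?_ ?_ ?_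
    · rintro ⟨b, d⟩ hx
      unfold Pr at hx
      simp only [mem_filter, mem_product, mem_range] at hx
      simp only [mem_sigma, mem_range]
      omega
    · rintro ⟨b, d⟩ _ ⟨b', d'⟩ _ h
      simp only [Sigma.mk.injEq, heq_eq_eq] at h
      rw [h.1, h.2]
    · rintro ⟨d, b⟩ hx
      simp only [mem_sigma, mem_range] at hx
      refine ⟨(b, d), ?_, rfl⟩
      unfold Pr
      simp only [mem_filter, mem_product, mem_range]
      omega
    · rintro ⟨b, d⟩ hx
      unfold Pr at hx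
      simp only [mem_filter, mem_product, mem_range] at hx
      simp only
      have h2 : ((n - b - 5 * d : ℕ) : ℤ) = (n : ℤ) - 5 * d - b := by omega
      rw [h2]
      have h3 : (-1 : ℤ) ^ n * (-1 : ℤ) ^ (n - b - 5 * d) = (-1) ^ d * (-1) ^ b := by
        rw [← pow_add, ← pow_add]
        have h4 : n + (n - b - 5 * d) = (d + b) + 2 * (n - b - 3 * d) := by omega
        rw [h4, pow_add, pow_mul]
        simp
      linear_combination ((n : ℤ) - 5 * d - b) ^ 2 * h3
  have h2 : 2 * ((-1 : ℤ) ^ n * S (U 3) 2 n) =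
      ∑ d ∈ range (2 * q + 1), (-1 : ℤ) ^ d * (((n : ℤ) - 5 * d) * ((n : ℤ) - 5 * d + 1)) -
      ∑ d ∈ range (2 * q + 1), (((6 * q + 1 : ℤ) - 2 * d) * ((6 * q + 1 : ℤ) - 2 * d + 1)) := by
    rw [h1, Finset.mul_sum, ← Finset.sum_sub_distrib]
    refine Finset.sum_congr rfl fun d hd => ?_
    rw [mem_range] at hd
    have h3 := inner ((n : ℤ) - 5 * d) (6 * q + 1 - 3 * d)
    rw [← Finset.mul_sum]
    have h4 : ((6 * q + 1 - 3 * d : ℕ) : ℤ) = 6 * q + 1 - 3 * d := by omega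
    have h5 : (-1 : ℤ) ^ d * (-1) ^ (6 * q + 1 - 3 * d) = -1 := by
      rw [← pow_add]
      have h6 : d + (6 * q + 1 - 3 * d) = 2 * (3 * q - d) + 1 := by omega
      rw [h6, pow_succ, pow_mul]
      simp
    have hn' : (n : ℤ) = 12 * q + 3 := by rw [hn]; push_cast; ring
    rw [h4] at h3
    calc 2 * ((-1 : ℤ) ^ d * ∑ b ∈ range ((6 * q + 1 - 3 * d) + 1),
          ((-1 : ℤ) ^ b * (((n : ℤ) - 5 * d) - b) ^ 2))
        = (-1 : ℤ) ^ d * (2 * ∑ b ∈ range ((6 * q + 1 - 3 * d) + 1),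
          ((-1 : ℤ) ^ b * (((n : ℤ) - 5 * d) - b) ^ 2)) := by ring
      _ = (-1 : ℤ) ^ d * (((n : ℤ) - 5 * d) * ((n : ℤ) - 5 * d + 1)) +
          ((-1 : ℤ) ^ d * (-1) ^ (6 * q + 1 - 3 * d)) *
            (((n : ℤ) - 5 * d - (6 * q + 1 - 3 * d) - 1) *
              ((n : ℤ) - 5 * d - (6 * q + 1 - 3 * d))) := by rw [h3]; ring
      _ = _ := by rw [h5, hn']; ring
  have h3 := outer1 n q
  have h4 := outer2 (6 * q + 1) q
  have hn' : (n : ℤ) = 12 * q + 3 := by rw [hn]; push_cast; ring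
  have h5 : 6 * ((-1 : ℤ) ^ n * S (U 3) 2 n) =
      3 * (2 * ((-1 : ℤ) ^ n * S (U 3) 2 n)) := by ring
  rw [h5, h2, mul_sub, h4, h3, hn']
  ring

/-- For `m = 3` and `k = 2 = m - 1` part (ii) fails: `(-1)^n S_{U_3,2}(n)` is negative for
infinitely many `n`, namely for every `n = 12 q + 3` with `q ≥ 2`. -/
theorem result : ∃ m : ℕ, 2 ≤ m ∧ ∃ k : ℕ, m - 1 ≤ k ∧
    ∀ N : ℕ, ∃ n : ℕ, N ≤ n ∧ (-1 : ℤ) ^ n * S (U m) k n < 0 := by
  refine ⟨3, by norm_num, 2, by norm_num, fun N => ⟨12 * (N + 2) + 3, by omega, ?_⟩⟩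
  have h := value (N + 2)
  have h2 : -104 * (((N + 2 : ℕ) : ℤ)) ^ 3 + 90 * (((N + 2 : ℕ) : ℤ)) ^ 2 +
      170 * ((N + 2 : ℕ) : ℤ) + 30 < 0 := by
    push_cast
    have : (0 : ℤ) ≤ N := Int.natCast_nonneg N
    have h3 : (0 : ℤ) ≤ (N : ℤ) ^ 2 := pow_nonneg this 2
    have h4 : (0 : ℤ) ≤ (N : ℤ) ^ 3 := pow_nonneg this 3
    nlinarith
  rw [← h] at h2
  linarith

end Pool.Agent.Results.MP_e74e95_nt.SecondPartFails
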